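import Pool.Agent.Helper76.GT.St

/-!
# MP_b731ff_al, project GT, module POI: Poincare inequality on balls of a Cayley graph
-/

set_option autoImplicit false

namespace Pool.Agent.Helper40.GT

open Pool.Agent.Helper76.GT Filter
open scoped Pointwise

universe u

/-- variance as a double sum -/
lemma var_eq {H : Type u} (B : Finset H) (hB : B.Nonempty) (F : H → ℝ) :
    2 * (B.card : ℝ) * ∑ y ∈ B, (F y - (∑ z ∈ B, F z) / (B.card : ℝ)) ^ 2 =
      ∑ y ∈ B, ∑ z ∈ B, (F z - F y) ^ 2 := by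
  have hn : (B.card : ℝ) ≠ 0 := by
    have := Finset.card_pos.2 hB
    exact_mod_cast this.ne'
  obtain ⟨s1, hs1⟩ : ∃ s1, s1 = ∑ z ∈ B, F z := ⟨_, rfl⟩
  obtain ⟨s2, hs2⟩ : ∃ s2, s2 = ∑ z ∈ B, F z ^ 2 := ⟨_, rfl⟩
  have h1 : ∀ μ : ℝ, ∑ y ∈ B, (F y - μ) ^ 2 = s2 - 2 * μ * s1 + B.card * μ ^ 2 := by
    intro μ
    calc ∑ y ∈ B, (F y - μ) ^ 2 = ∑ y ∈ B, (F y ^ 2 - 2 * μ * F y + μ ^ 2) :=
          Finset.sum_congr rfl fun _ _ => by ring
      _ = s2 - 2 * μ * s1 + B.card * μ ^ 2 := by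
          rw [Finset.sum_add_distrib, Finset.sum_sub_distrib, ← Finset.mul_sum, Finset.sum_const,
            nsmul_eq_mul, hs1, hs2]
  rw [← hs1]
  have h2 : ∑ y ∈ B, ∑ z ∈ B, (F z - F y) ^ 2 =
      B.card * s2 - 2 * s1 * s1 + B.card * s2 := by
    calc ∑ y ∈ B, ∑ z ∈ B, (F z - F y) ^ 2
        = ∑ y ∈ B, (s2 - 2 * s1 * F y + B.card * F y ^ 2) :=
          Finset.sum_congr rfl fun y _ => by rw [h1 (F y)]; ring
      _ = B.card * s2 - 2 * s1 * s1 + B.card * s2 := by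
          rw [Finset.sum_add_distrib, Finset.sum_sub_distrib, ← Finset.mul_sum, ← Finset.mul_sum,
            Finset.sum_const, nsmul_eq_mul, ← hs1, ← hs2]
  rw [h1, h2]
  field_simp
  ring

section

variable {H : Type u} [Group H] [DecidableEq H]

omit [DecidableEq H] in
lemma grad2_nonneg (S : Finset H) (f : H → ℝ) (x : H) : 0 ≤ grad2 S f x :=
  Finset.sum_nonneg fun _ _ => sq_nonneg _

/-- translation of a sum over a ball -/
lemma sum_trans (S : Finset H) (φ : H → ℝ) (hφ : ∀ w, 0 ≤ φ w) (r m : ℕ) (h : H)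
    (hh : h ∈ S ^ m) : ∑ y ∈ S ^ r, φ (y * h) ≤ ∑ w ∈ S ^ (r + m), φ w := by
  have e : ∑ y ∈ S ^ r, φ (y * h) = ∑ w ∈ (S ^ r).image (fun y => y * h), φ w := by
    rw [Finset.sum_image]
    intro a _ b _ hab
    exact mul_right_cancel hab
  rw [e]
  refine Finset.sum_le_sum_of_subset_of_nonneg ?_ fun w _ _ => hφ w
  intro w hw
  obtain ⟨y, hy, rfl⟩ := Finset.mem_image.1 hw
  rw [pow_add]
  exact Finset.mul_mem_mul hy hh

lemma inv_mem_pow {S : Finset H} (hS : Gen S) (r : ℕ) (y : H) (hy : y ∈ S ^ r) :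
    y⁻¹ ∈ S ^ r := by
  have e : S⁻¹ = S := by
    ext s
    rw [Finset.mem_inv']
    constructor
    · intro h
      have := hS.inv _ h
      rwa [inv_inv] at this
    · exact fun h => hS.inv s h
  have e2 : (S ^ r)⁻¹ = S ^ r := by
    rw [← inv_pow, e]
  rw [← e2, Finset.mem_inv', inv_inv]
  exact hy

/-- displacement by an element of length `m` -/
lemma disp {S : Finset H} (hS : Gen S) (f : H → ℝ) (x : H) (m : ℕ) : ∀ g ∈ S ^ m, ∀ r : ℕ,
    ∑ y ∈ S ^ r, (f (x * (y * g)) - f (x * y)) ^ 2 ≤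
      (m : ℝ) ^ 2 * ∑ w ∈ S ^ (r + m), grad2 S f (x * w) := by
  induction m with
  | zero =>
    intro g hg r
    rw [pow_zero, Finset.mem_one] at hg
    subst hg
    simp
  | succ m ih =>
    intro g hg r
    rw [pow_succ] at hg
    obtain ⟨h, hh, s, hs, rfl⟩ := Finset.mem_mul.1 hg
    obtain ⟨G, hG⟩ : ∃ G, G = ∑ w ∈ S ^ (r + m), grad2 S f (x * w) := ⟨_, rfl⟩
    have hmono : G ≤ ∑ w ∈ S ^ (r + (m + 1)), grad2 S f (x * w) := by
      rw [hG]
      exact Finset.sum_le_sum_of_subset_of_nonneg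
        (Finset.pow_subset_pow_right hS.one (by omega)) fun w _ _ => grad2_nonneg S f _
    have hG0 : 0 ≤ G := by
      rw [hG]
      exact Finset.sum_nonneg fun w _ => grad2_nonneg S f _
    have hA : ∑ y ∈ S ^ r, (f (x * (y * (h * s))) - f (x * (y * h))) ^ 2 ≤ G := by
      have h1 : ∑ y ∈ S ^ r, (f (x * (y * (h * s))) - f (x * (y * h))) ^ 2 ≤
          ∑ y ∈ S ^ r, grad2 S f (x * (y * h)) := by
        refine Finset.sum_le_sum fun y _ => ?_
        have h2 := Finset.single_le_sum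
          (f := fun s => (f (x * (y * h) * s) - f (x * (y * h))) ^ 2)
          (fun _ _ => sq_nonneg _) hs
        simp only [mul_assoc] at h2
        simpa only [grad2, mul_assoc] using h2
      rw [hG]
      exact h1.trans (sum_trans S (fun w => grad2 S f (x * w)) (fun _ => grad2_nonneg S f _)
        r m h hh)
    have hB : ∑ y ∈ S ^ r, (f (x * (y * h)) - f (x * y)) ^ 2 ≤ (m : ℝ) ^ 2 * G := by
      rw [hG]
      exact ih h hh r
    have hmain : ∑ y ∈ S ^ r, (f (x * (y * (h * s))) - f (x * y)) ^ 2 ≤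
        ((m : ℝ) + 1) ^ 2 * G := by
      rcases Nat.eq_zero_or_pos m with hm | hm
      · subst hm
        rw [pow_zero, Finset.mem_one] at hh
        subst hh
        simp only [mul_one] at hA
        simpa using hA
      · have hm' : (0 : ℝ) < m := by exact_mod_cast hm
        have h1 : ∀ y ∈ S ^ r, (f (x * (y * (h * s))) - f (x * y)) ^ 2 ≤
            ((m : ℝ) + 1) * (f (x * (y * (h * s))) - f (x * (y * h))) ^ 2 +
              (1 + 1 / (m : ℝ)) * (f (x * (y * h)) - f (x * y)) ^ 2 := by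
          intro y _
          obtain ⟨a, ha⟩ : ∃ a, a = f (x * (y * (h * s))) - f (x * (y * h)) := ⟨_, rfl⟩
          obtain ⟨b, hb⟩ : ∃ b, b = f (x * (y * h)) - f (x * y) := ⟨_, rfl⟩
          have hab : f (x * (y * (h * s))) - f (x * y) = a + b := by rw [ha, hb]; ring
          rw [← ha, ← hb, hab]
          have h2 : ((m : ℝ) + 1) * a ^ 2 + (1 + 1 / (m : ℝ)) * b ^ 2 - (a + b) ^ 2 =
              (m * a - b) ^ 2 / m := by
            field_simp
            ring
          have h3 : 0 ≤ (m * a - b) ^ 2 / (m : ℝ) := div_nonneg (sq_nonneg _) hm'.le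
          linarith
        have h4 := Finset.sum_le_sum h1
        rw [Finset.sum_add_distrib, ← Finset.mul_sum, ← Finset.mul_sum] at h4
        have h5 := mul_le_mul_of_nonneg_left hA (show (0 : ℝ) ≤ (m : ℝ) + 1 by linarith)
        have h6 := mul_le_mul_of_nonneg_left hB
          (show (0 : ℝ) ≤ 1 + 1 / (m : ℝ) by positivity)
        have h7 : ((m : ℝ) + 1) * G + (1 + 1 / (m : ℝ)) * ((m : ℝ) ^ 2 * G) =
            ((m : ℝ) + 1) ^ 2 * G := by
          field_simp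
          ring
        linarith
    refine hmain.trans ?_
    push_cast
    exact mul_le_mul_of_nonneg_left hmono (sq_nonneg _)

end

theorem pPOI (H : Type u) [Group H] [DecidableEq H] : POI H := by
  intro S hS f x r
  obtain ⟨G, hG⟩ : ∃ G, G = ∑ w ∈ S ^ (3 * r), grad2 S f (x * w) := ⟨_, rfl⟩
  rw [← hG]
  have hne : (S ^ r).Nonempty := ⟨1, by
    have := Finset.pow_subset_pow_right hS.one (Nat.zero_le r)
    exact this (by simp)⟩
  have hn : (0 : ℝ) < ((S ^ r).card : ℝ) := by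
    have := Finset.card_pos.2 hne
    exact_mod_cast this
  have hv := var_eq (S ^ r) hne (fun y => f (x * y))
  have h1 : ∑ y ∈ S ^ r, ∑ z ∈ S ^ r, (f (x * z) - f (x * y)) ^ 2 ≤
      ∑ y ∈ S ^ r, ∑ g ∈ S ^ (2 * r), (f (x * (y * g)) - f (x * y)) ^ 2 := by
    refine Finset.sum_le_sum fun y hy => ?_
    have e : ∑ z ∈ S ^ r, (f (x * z) - f (x * y)) ^ 2 =
        ∑ g ∈ (S ^ r).image (fun z => y⁻¹ * z), (f (x * (y * g)) - f (x * y)) ^ 2 := by
      rw [Finset.sum_image]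
      · refine Finset.sum_congr rfl fun z _ => ?_
        rw [mul_inv_cancel_left]
      · intro a _ b _ hab
        exact mul_left_cancel hab
    rw [e]
    refine Finset.sum_le_sum_of_subset_of_nonneg ?_ fun _ _ _ => sq_nonneg _
    intro g hg
    obtain ⟨z, hz, rfl⟩ := Finset.mem_image.1 hg
    rw [two_mul, pow_add]
    exact Finset.mul_mem_mul (inv_mem_pow hS r y hy) hz
  have h2 : ∑ g ∈ S ^ (2 * r), ∑ y ∈ S ^ r, (f (x * (y * g)) - f (x * y)) ^ 2 ≤
      ((S ^ (2 * r)).card : ℝ) * ((2 * (r : ℝ)) ^ 2 * G) := by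
    rw [← nsmul_eq_mul]
    refine Finset.sum_le_card_nsmul _ _ _ fun g hg => ?_
    have h3 := disp hS f x (2 * r) g hg r
    rw [show r + 2 * r = 3 * r by ring] at h3
    rw [hG]
    push_cast at h3
    exact h3
  have h3 : 2 * ((S ^ r).card : ℝ) *
      ∑ y ∈ S ^ r, (f (x * y) - (∑ z ∈ S ^ r, f (x * z)) / ((S ^ r).card : ℝ)) ^ 2 ≤
        ((S ^ (2 * r)).card : ℝ) * ((2 * (r : ℝ)) ^ 2 * G) := by
    rw [hv]
    refine h1.trans (le_trans (le_of_eq ?_) h2)
    rw [Finset.sum_comm]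
  have h4 : 2 * (r : ℝ) ^ 2 * (((S ^ (2 * r)).card : ℝ) / ((S ^ r).card : ℝ)) * G =
      (((S ^ (2 * r)).card : ℝ) * ((2 * (r : ℝ)) ^ 2 * G)) / (2 * ((S ^ r).card : ℝ)) := by
    field_simp
  rw [h4, le_div_iff₀ (by linarith)]
  linarith

end Pool.Agent.Helper40.GT
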